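import Mathlib

namespace Pool.Agent.Results.MP_ca8ef0_co.NotUniformlyTransitive

/-- The halfspace of the cube `{-1,1}^n` (points are maps `Fin n → ℤˣ`, the units of `ℤ` being
exactly `1` and `-1`) determined by the real numbers `a0` and `a 0, …, a (n-1)`. -/
def halfspace {n : ℕ} (a0 : ℝ) (a : Fin n → ℝ) : Set (Fin n → ℤˣ) :=
  {x | 0 ≤ a0 + ∑ i, a i * (((x i : ℤˣ) : ℤ) : ℝ)}

/-- `A` is `C`-bi-Lipschitz transitive: any two points `x, y` of `A` are exchanged by a bijection
of `A` changing every (Hamming) distance between distinct points by a factor in `[1/C, C]`. -/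
def BiLipschitzTransitive {n : ℕ} (C : ℝ) (A : Set (Fin n → ℤˣ)) : Prop :=
  ∀ x y : A, ∃ f : A ≃ A, f x = y ∧ f y = x ∧
    ∀ z w : A, z ≠ w →
      1 / C ≤ (hammingDist (f z : Fin n → ℤˣ) (f w : Fin n → ℤˣ) : ℝ) /
          (hammingDist (z : Fin n → ℤˣ) (w : Fin n → ℤˣ) : ℝ) ∧
      (hammingDist (f z : Fin n → ℤˣ) (f w : Fin n → ℤˣ) : ℝ) /
          (hammingDist (z : Fin n → ℤˣ) (w : Fin n → ℤˣ) : ℝ) ≤ C

lemma unit_cast (u : ℤˣ) : (((u : ℤˣ) : ℤ) : ℝ) = 1 ∨ (((u : ℤˣ) : ℤ) : ℝ) = -1 := by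
  rcases Int.units_eq_one_or u with h | h <;> simp [h]

/-- The weights. -/
noncomputable def wt (K : ℕ) : Fin (2 ^ K + K) → ℝ :=
  Fin.addCases (fun _ => (K : ℝ)) (fun _ => (1 : ℝ))

/-- The poor point. -/
def poor (K : ℕ) : Fin (2 ^ K + K) → ℤˣ :=
  Fin.addCases (fun _ => (1 : ℤˣ)) (fun _ => (-1 : ℤˣ))

/-- The offset. -/
noncomputable def off (K : ℕ) : ℝ := - ∑ i, wt K i * (((poor K i : ℤˣ) : ℤ) : ℝ)

lemma mem_iff (K : ℕ) (z : Fin (2 ^ K + K) → ℤˣ) :
    z ∈ halfspace (off K) (wt K) ↔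
      0 ≤ ∑ i, wt K i * ((((z i : ℤˣ) : ℤ) : ℝ) - (((poor K i : ℤˣ) : ℤ) : ℝ)) := by
  unfold halfspace off
  rw [Set.mem_ofPred_eq]
  have : -∑ i, wt K i * (((poor K i : ℤˣ) : ℤ) : ℝ) + ∑ i, wt K i * (((z i : ℤˣ) : ℤ) : ℝ)
      = ∑ i, wt K i * ((((z i : ℤˣ) : ℤ) : ℝ) - (((poor K i : ℤˣ) : ℤ) : ℝ)) := by
    simp only [mul_sub, Finset.sum_sub_distrib]
    ring
  rw [this]

lemma poor_mem (K : ℕ) : poor K ∈ halfspace (off K) (wt K) := by
  rw [mem_iff]; simp

/-- A point of the halfspace at distance less than `K` from the poor point agrees with it on the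
heavy coordinates. -/
lemma near_poor (K : ℕ) (z : Fin (2 ^ K + K) → ℤˣ) (hz : z ∈ halfspace (off K) (wt K))
    (hd : hammingDist z (poor K) < K) (i : Fin (2 ^ K)) : z (Fin.castAdd K i) = 1 := by
  by_contra hne
  have hzi : z (Fin.castAdd K i) = -1 := (Int.units_eq_one_or _).resolve_left hne
  rw [mem_iff] at hz
  set D : Finset (Fin (2 ^ K + K)) := Finset.univ.filter (fun j => z j ≠ poor K j) with hD
  have hDcard : D.card < K := by simpa [hammingDist, hD] using hd
  have hiD : Fin.castAdd K i ∈ D := by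
    simp only [hD, Finset.mem_filter, Finset.mem_univ, true_and]
    rw [hzi]
    simp [poor]
  have hsum : ∑ j, wt K j * ((((z j : ℤˣ) : ℤ) : ℝ) - (((poor K j : ℤˣ) : ℤ) : ℝ))
      = ∑ j ∈ D, wt K j * ((((z j : ℤˣ) : ℤ) : ℝ) - (((poor K j : ℤˣ) : ℤ) : ℝ)) := by
    symm
    apply Finset.sum_subset (Finset.subset_univ _)
    intro j _ hj
    have : z j = poor K j := by
      by_contra h
      exact hj (by simp [hD, h])
    rw [this]; ring
  rw [hsum, ← Finset.add_sum_erase D _ hiD] at hz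
  have h1 : wt K (Fin.castAdd K i) *
      ((((z (Fin.castAdd K i) : ℤˣ) : ℤ) : ℝ) - (((poor K (Fin.castAdd K i) : ℤˣ) : ℤ) : ℝ))
      = -2 * K := by
    rw [hzi]
    simp [wt, poor]
    ring
  have h2 : ∑ j ∈ D.erase (Fin.castAdd K i),
      wt K j * ((((z j : ℤˣ) : ℤ) : ℝ) - (((poor K j : ℤˣ) : ℤ) : ℝ))
      ≤ ∑ j ∈ D.erase (Fin.castAdd K i), (2 : ℝ) := by
    apply Finset.sum_le_sum
    intro j _
    refine Fin.addCases (fun k => ?_) (fun k => ?_) j
    · have hw : wt K (Fin.castAdd K k) = K := by simp [wt]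
      have hp : (((poor K (Fin.castAdd K k) : ℤˣ) : ℤ) : ℝ) = 1 := by simp [poor]
      rw [hw, hp]
      rcases unit_cast (z (Fin.castAdd K k)) with h | h <;> rw [h]
      · norm_num
      · have : (0 : ℝ) ≤ K := Nat.cast_nonneg K
        linarith
    · have hw : wt K (Fin.natAdd (2 ^ K) k) = 1 := by simp [wt]
      have hp : (((poor K (Fin.natAdd (2 ^ K) k) : ℤˣ) : ℤ) : ℝ) = -1 := by simp [poor]
      rw [hw, hp]
      rcases unit_cast (z (Fin.natAdd (2 ^ K) k)) with h | h <;> rw [h] <;> norm_num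
  rw [Finset.sum_const, nsmul_eq_mul] at h2
  have h3 : ((D.erase (Fin.castAdd K i)).card : ℝ) ≤ K := by
    have := Finset.card_erase_le (s := D) (a := Fin.castAdd K i)
    exact_mod_cast (this.trans hDcard.le)
  have h4 : ((D.erase (Fin.castAdd K i)).card : ℝ) < K := by
    have := Finset.card_erase_le (s := D) (a := Fin.castAdd K i)
    exact_mod_cast (lt_of_le_of_lt this hDcard)
  rw [h1] at hz
  linarith

/-- The neighbours of the top point obtained by flipping a heavy coordinate. -/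
def nb (K : ℕ) (i : Fin (2 ^ K)) : Fin (2 ^ K + K) → ℤˣ :=
  Function.update (fun _ => 1) (Fin.castAdd K i) (-1)

lemma top_mem (K : ℕ) : (fun _ => 1 : Fin (2 ^ K + K) → ℤˣ) ∈ halfspace (off K) (wt K) := by
  rw [mem_iff, Fin.sum_univ_add]
  simp [wt, poor]

lemma nb_mem (K : ℕ) (i : Fin (2 ^ K)) : nb K i ∈ halfspace (off K) (wt K) := by
  rw [mem_iff, Fin.sum_univ_add]
  have h1 : ∑ j : Fin (2 ^ K), wt K (Fin.castAdd K j) *
      ((((nb K i (Fin.castAdd K j) : ℤˣ) : ℤ) : ℝ) -
        (((poor K (Fin.castAdd K j) : ℤˣ) : ℤ) : ℝ)) = -2 * K := by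
    rw [Finset.sum_eq_single i]
    · simp [nb, wt, poor]; ring
    · intro j _ hj
      have : Fin.castAdd K j ≠ Fin.castAdd K i := by
        intro h; exact hj (Fin.castAdd_injective _ _ h)
      simp [nb, wt, poor, Function.update_of_ne this]
    · simp
  have h2 : ∑ j : Fin K, wt K (Fin.natAdd (2 ^ K) j) *
      ((((nb K i (Fin.natAdd (2 ^ K) j) : ℤˣ) : ℤ) : ℝ) -
        (((poor K (Fin.natAdd (2 ^ K) j) : ℤˣ) : ℤ) : ℝ)) = 2 * K := by
    have : ∀ j : Fin K, wt K (Fin.natAdd (2 ^ K) j) *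
      ((((nb K i (Fin.natAdd (2 ^ K) j) : ℤˣ) : ℤ) : ℝ) -
        (((poor K (Fin.natAdd (2 ^ K) j) : ℤˣ) : ℤ) : ℝ)) = 2 := by
      intro j
      have hne : Fin.natAdd (2 ^ K) j ≠ Fin.castAdd K i := by
        intro h
        have := congrArg Fin.val h
        simp at this
        have h' := i.isLt
        omega
      simp [nb, wt, poor, Function.update_of_ne hne]
      norm_num
    simp [this]
    ring
  rw [h1, h2]
  linarith

lemma nb_injective (K : ℕ) : Function.Injective (nb K) := by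
  intro i j h
  by_contra hne
  have h1 := congrFun h (Fin.castAdd K i)
  have hne' : Fin.castAdd K i ≠ Fin.castAdd K j := by
    intro h; exact hne (Fin.castAdd_injective _ _ h)
  simp [nb, Function.update_of_ne hne'] at h1

lemma nb_ne_top (K : ℕ) (i : Fin (2 ^ K)) : nb K i ≠ fun _ => 1 := by
  intro h
  have h1 := congrFun h (Fin.castAdd K i)
  simp [nb] at h1

lemma nb_dist (K : ℕ) (i : Fin (2 ^ K)) : hammingDist (nb K i) (fun _ => 1) = 1 := by
  unfold hammingDist
  rw [Finset.card_eq_one]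
  refine ⟨Fin.castAdd K i, ?_⟩
  ext j
  simp only [Finset.mem_filter, Finset.mem_univ, true_and, Finset.mem_singleton]
  constructor
  · intro h
    by_contra hne
    exact h (by simp [nb, Function.update_of_ne hne])
  · rintro rfl
    simp [nb]

/-- No constant `C` makes all halfspaces of all cubes `{-1,1}^n` `C`-bi-Lipschitz transitive. -/
theorem result : ∀ C : ℝ, 1 ≤ C → ∃ (n : ℕ) (a0 : ℝ) (a : Fin n → ℝ),
    ¬ BiLipschitzTransitive C (halfspace a0 a) := by
  intro C hC
  obtain ⟨K, hK⟩ := exists_nat_gt C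
  refine ⟨2 ^ K + K, off K, wt K, ?_⟩
  intro htr
  obtain ⟨f, hf1, -, hf3⟩ := htr ⟨_, top_mem K⟩ ⟨_, poor_mem K⟩
  -- the images of the neighbours are close to the poor point
  have key : ∀ i : Fin (2 ^ K),
      hammingDist ((f ⟨nb K i, nb_mem K i⟩ : halfspace (off K) (wt K)) :
        Fin (2 ^ K + K) → ℤˣ) (poor K) < K := by
    intro i
    have hne : (⟨nb K i, nb_mem K i⟩ : halfspace (off K) (wt K)) ≠ ⟨_, top_mem K⟩ := by
      intro h
      exact nb_ne_top K i (congrArg Subtype.val h)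
    have h := (hf3 _ _ hne).2
    rw [hf1] at h
    simp only [nb_dist, Nat.cast_one, div_one] at h
    exact_mod_cast lt_of_le_of_lt h hK
  have hA : ∀ (i j : Fin (2 ^ K)),
      ((f ⟨nb K i, nb_mem K i⟩ : halfspace (off K) (wt K)) : Fin (2 ^ K + K) → ℤˣ)
        (Fin.castAdd K j) = 1 := fun i j =>
    near_poor K _ (f ⟨nb K i, nb_mem K i⟩).2 (key i) j
  -- restriction to the light coordinates
  let g : Option (Fin (2 ^ K)) → (Fin K → ℤˣ) := fun o =>
    match o with
    | none => fun _ => -1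
    | some i => fun k =>
        ((f ⟨nb K i, nb_mem K i⟩ : halfspace (off K) (wt K)) : Fin (2 ^ K + K) → ℤˣ)
          (Fin.natAdd (2 ^ K) k)
  have hg : Function.Injective g := by
    have hsome : ∀ i : Fin (2 ^ K), g (some i) ≠ g none := by
      intro i h
      have heq : ((f ⟨nb K i, nb_mem K i⟩ : halfspace (off K) (wt K)) :
          Fin (2 ^ K + K) → ℤˣ) = poor K := by
        funext j
        refine Fin.addCases (fun k => ?_) (fun k => ?_) j
        · rw [hA]; simp [poor]
        · have := congrFun h k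
          simp only [g] at this
          rw [this]; simp [poor]
      have h2 : f ⟨nb K i, nb_mem K i⟩ = f ⟨_, top_mem K⟩ := by
        rw [hf1]; exact Subtype.ext heq
      have h3 := congrArg Subtype.val (f.injective h2)
      exact nb_ne_top K i h3
    intro o o' h
    match o, o' with
    | none, none => rfl
    | some i, none => exact absurd h (hsome i)
    | none, some i => exact absurd h.symm (hsome i)
    | some i, some j =>
      have heq : f ⟨nb K i, nb_mem K i⟩ = f ⟨nb K j, nb_mem K j⟩ := by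
        apply Subtype.ext
        funext l
        refine Fin.addCases (fun k => ?_) (fun k => ?_) l
        · rw [hA, hA]
        · have := congrFun h k
          simpa only [g] using this
      have h3 := congrArg Subtype.val (f.injective heq)
      rw [nb_injective K h3]
  have hcard := Fintype.card_le_of_injective g hg
  simp [Fintype.card_option, Fintype.card_pi] at hcard

end Pool.Agent.Results.MP_ca8ef0_co.NotUniformlyTransitive
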